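import Pool.Agent.H61.KU.TA

/-!
# Kuiper board, part A, row DOM: invariance of domain in dimension 4
-/

open Topology Set
open Pool.Agent.H59 Pool.Agent.H64.LB

namespace Pool.Agent.H54.KU

open Pool.Agent.H61.KU

/-- the open unit ball of `ℝ^4` -/
def OB : Set (Fin 4 → ℝ) := {x | ∑ i, x i ^ 2 < 1}

theorem sum_key (x y : Fin 4 → ℝ) (a b : ℝ) (ha : 0 ≤ a) (hb : 0 ≤ b) (hab : a + b = 1) :
    ∑ i, (a • x + b • y) i ^ 2 ≤ a * ∑ i, x i ^ 2 + b * ∑ i, y i ^ 2 := by
  rw [Finset.mul_sum, Finset.mul_sum, ← Finset.sum_add_distrib]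
  apply Finset.sum_le_sum
  intro i _
  have e : (a • x + b • y) i = a * x i + b * y i := rfl
  rw [e]
  have hb' : b = 1 - a := by linarith
  have h1 : 0 ≤ a * b * (x i - y i) ^ 2 := mul_nonneg (mul_nonneg ha hb) (sq_nonneg _)
  have h2 : a * x i ^ 2 + b * y i ^ 2 - (a * x i + b * y i) ^ 2 = a * b * (x i - y i) ^ 2 := by
    rw [hb']
    ring
  linarith

theorem ball_convex : Convex ℝ Ball4 := by
  intro x hx y hy a b ha hb hab
  have hx' : ∑ i, x i ^ 2 ≤ 1 := hx
  have hy' : ∑ i, y i ^ 2 ≤ 1 := hy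
  show ∑ i, (a • x + b • y) i ^ 2 ≤ 1
  have h := sum_key x y a b ha hb hab
  have h1 := mul_le_mul_of_nonneg_left hx' ha
  have h2 := mul_le_mul_of_nonneg_left hy' hb
  linarith

theorem ob_convex : Convex ℝ OB := by
  intro x hx y hy a b ha hb hab
  have hx' : ∑ i, x i ^ 2 < 1 := hx
  have hy' : ∑ i, y i ^ 2 < 1 := hy
  show ∑ i, (a • x + b • y) i ^ 2 < 1
  have h := sum_key x y a b ha hb hab
  rcases ha.lt_or_eq with h0 | h0
  · have h1 := mul_lt_mul_of_pos_left hx' h0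
    have h2 := mul_le_mul_of_nonneg_left hy'.le hb
    linarith
  · have hb1 : b = 1 := by linarith
    rw [← h0, hb1] at h
    rw [← h0, hb1]
    linarith

theorem coord_le {y : Fin 4 → ℝ} (hy : y ∈ Ball4) (i : Fin 4) : |y i| ≤ 1 := by
  have hy' : ∑ i, y i ^ 2 ≤ 1 := hy
  have h1 : y i ^ 2 ≤ ∑ i, y i ^ 2 :=
    Finset.single_le_sum (f := fun i => y i ^ 2) (fun j _ => sq_nonneg _) (Finset.mem_univ i)
  exact abs_le_one_iff_mul_self_le_one.2 (by nlinarith)

theorem ball_compact : IsCompact Ball4 := by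
  have h1 : IsClosed Ball4 := isClosed_le (by fun_prop) continuous_const
  have h2 : IsCompact (Set.pi univ (fun _ : Fin 4 => Icc (-1 : ℝ) 1)) :=
    isCompact_univ_pi (fun _ => isCompact_Icc)
  refine h2.of_isClosed_subset h1 ?_
  intro y hy i _
  exact abs_le.1 (coord_le hy i)

theorem norm_le_one {y : Fin 4 → ℝ} (hy : y ∈ Ball4) : ‖y‖ ≤ 1 := by
  rw [pi_norm_le_iff_of_nonneg zero_le_one]
  intro i
  rw [Real.norm_eq_abs]
  exact coord_le hy i

theorem open_of_sep {Y : Type} [TopologicalSpace Y] (W A B : Set Y) (hW : IsOpen W)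
    (hAB : W = A ∪ B) (hA : IsPreconnected A) (hB : IsPreconnected B)
    (hns : ¬ IsPreconnected W) : IsOpen A := by
  have key : ∀ u v : Set Y, IsOpen u → IsOpen v → Disjoint u v → W = u ∪ v → A ⊆ u → B ⊆ v →
      IsOpen A := by
    intro u v hu _ hd huv hAu hBv
    have e : A = u := by
      apply hAu.antisymm
      intro z hz
      have hzW : z ∈ W := by
        rw [huv]
        exact Or.inl hz
      rw [hAB] at hzW
      rcases hzW with h | h
      · exact h
      · exact absurd (hBv h) (disjoint_left.1 hd hz)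
    rw [e]
    exact hu
  unfold IsPreconnected at hns
  push Not at hns
  obtain ⟨u, v, hu, hv, huv, hun, hvn, hd⟩ := hns
  have hu' : IsOpen (W ∩ u) := hW.inter hu
  have hv' : IsOpen (W ∩ v) := hW.inter hv
  have hd' : Disjoint (W ∩ u) (W ∩ v) := by
    rw [disjoint_left]
    rintro z ⟨h1, h2⟩ ⟨_, h3⟩
    have : z ∈ W ∩ (u ∩ v) := ⟨h1, h2, h3⟩
    rw [hd] at this
    exact this
  have e : W = (W ∩ u) ∪ (W ∩ v) := by
    rw [← inter_union_distrib_left]
    exact (inter_eq_left.2 huv).symm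
  have hAW : A ⊆ (W ∩ u) ∪ (W ∩ v) := by
    rw [← e, hAB]
    exact subset_union_left
  have hBW : B ⊆ (W ∩ u) ∪ (W ∩ v) := by
    rw [← e, hAB]
    exact subset_union_right
  rcases hA.subset_or_subset hu' hv' hd' hAW with h1 | h1 <;>
    rcases hB.subset_or_subset hu' hv' hd' hBW with h2 | h2
  · exfalso
    obtain ⟨z, hz⟩ := hvn
    have hz1 : z ∈ A ∪ B := hAB ▸ hz.1
    rcases hz1 with h | h
    · exact disjoint_left.1 hd' (h1 h) hz
    · exact disjoint_left.1 hd' (h2 h) hz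
  · exact key _ _ hu' hv' hd' e h1 h2
  · exact key _ _ hv' hu' hd'.symm (e.trans (union_comm _ _)) h1 h2
  · exfalso
    obtain ⟨z, hz⟩ := hun
    have hz1 : z ∈ A ∪ B := hAB ▸ hz.1
    rcases hz1 with h | h
    · exact disjoint_left.1 hd' hz (h1 h)
    · exact disjoint_left.1 hd' hz (h2 h)

theorem pf_dom (hC : T_CEL) (hP : T_PRE) (h4 : T_S4A) (hS : T_SEP) : T_DOM := by
  obtain ⟨hpc, -, hpt, -, ⟨c, hc⟩, -⟩ := h4
  intro U g hU hg hgi
  rw [isOpen_iff_mem_nhds]
  rintro _ ⟨x, hx, rfl⟩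
  obtain ⟨r, hr, hrU⟩ : ∃ r : ℝ, 0 < r ∧ ∀ y ∈ Ball4, x + r • y ∈ U := by
    obtain ⟨r, hr, hrU⟩ := Metric.isOpen_iff.1 hU x hx
    refine ⟨r / 2, by positivity, fun y hy => hrU ?_⟩
    rw [Metric.mem_ball, dist_eq_norm, add_sub_cancel_left, norm_smul, Real.norm_eq_abs,
      abs_of_pos (by positivity)]
    have := norm_le_one hy
    nlinarith [norm_nonneg y]
  let h : (Fin 4 → ℝ) → S4 := fun y => c (g (x + r • y))
  have hcont : ContinuousOn h Ball4 :=
    hc.continuous.comp_continuousOn (hg.comp (by fun_prop) hrU)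
  have hinj : InjOn h Ball4 := by
    intro y hy z hz hyz
    have h1 := hc.injective hyz
    have h2 := hgi (hrU y hy) (hrU z hz) h1
    exact smul_right_injective _ hr.ne' (add_left_cancel h2)
  have hSB : Sphere4 ⊆ Ball4 := fun y hy => le_of_eq hy
  have hOB : OB ⊆ Ball4 := fun y hy => (show ∑ i, y i ^ 2 < 1 from hy).le
  have hns := hS h (hcont.mono hSB) (hinj.mono hSB)
  have hcl : IsClosed Sphere4 := isClosed_eq (by fun_prop) continuous_const
  have hcs : IsCompact Sphere4 := ball_compact.of_isClosed_subset hcl hSB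
  have hW : IsOpen ((h '' Sphere4)ᶜ) :=
    (hcs.image_of_continuousOn (hcont.mono hSB)).isClosed.isOpen_compl
  have hsplit : (h '' Sphere4)ᶜ = h '' OB ∪ (h '' Ball4)ᶜ := by
    ext z
    constructor
    · intro hz
      by_cases hz' : z ∈ h '' Ball4
      · left
        obtain ⟨y, hy, rfl⟩ := hz'
        refine ⟨y, ?_, rfl⟩
        rcases (show ∑ i, y i ^ 2 ≤ 1 from hy).lt_or_eq with h1 | h1
        · exact h1
        · exact absurd ⟨y, h1, rfl⟩ hz
      · right
        exact hz'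
    · rintro (⟨y, hy, rfl⟩ | hz)
      · rintro ⟨w, hw, hwy⟩
        have e := hinj (hSB hw) (hOB hy) hwy
        rw [e] at hw
        exact absurd (show ∑ i, y i ^ 2 = 1 from hw) (show ∑ i, y i ^ 2 < 1 from hy).ne
      · intro hz'
        exact hz (image_mono hSB hz')
  have hA : IsPreconnected (h '' OB) := ob_convex.isPreconnected.image h (hcont.mono hOB)
  have h0 : (0 : Fin 4 → ℝ) ∈ OB := by
    show ∑ i : Fin 4, (0 : Fin 4 → ℝ) i ^ 2 < 1
    simp
  have hB : IsPreconnected ((h '' Ball4)ᶜ) := by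
    have h1 := hC S4 hpt 4 Ball4 h ball_compact ball_convex ⟨0, hOB h0⟩ hcont hinj
    have h2 : PreconnectedSpace ↥((h '' Ball4)ᶜ) := hP S4 _ (inc _) (h1.1 0 (by omega)).1
    exact isPreconnected_iff_preconnectedSpace.2 h2
  have hopen : IsOpen (h '' OB) := open_of_sep _ _ _ hW hsplit hA hB hns
  have hopen' : IsOpen (c ⁻¹' (h '' OB)) := hopen.preimage hc.continuous
  have hmem : g x ∈ c ⁻¹' (h '' OB) := by
    refine ⟨0, h0, ?_⟩
    show c (g (x + r • (0 : Fin 4 → ℝ))) = c (g x)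
    rw [smul_zero, add_zero]
  refine Filter.mem_of_superset (hopen'.mem_nhds hmem) ?_
  rintro z ⟨y, hy, hyz⟩
  have h1 : g (x + r • y) = z := hc.injective hyz
  exact ⟨x + r • y, hrU y (hOB hy), h1⟩

end Pool.Agent.H54.KU
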